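import Pool.Agent.N115.IM.Top

/-!
# Negative Kodaira dimension and uniruledness for the images of bounded degree of the varieties of
the vectors whose powers are the values of a polynomial

Let `a 0, ..., a N` be distinct constants and `m ≥ 2`. Let `X ⊆ P^N` be the `n`-dimensional complete
intersection of the points `x` for which there is a polynomial `H` of degree at most `n` such that
`x i ^ m = H (a i)` for all `i`, and let `Z` be a closed subvariety of `X`, of any dimension `w ≥ 1`.
We consider all the varieties `W` which are dominated by `Z` with degree at most `r`, and all the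
varieties `W` with an `r`-valued map to `Z`; no assumption is made on the branch loci or on the
singularities of the maps.

The function-field language of the starting repository is used: `KodGe k L w (fun _ => False) 0`
says that `κ(W) ≥ 0` for a projective manifold `W` with function field `L`,
`Psef k L w (fun _ => False)` that its canonical bundle is pseudo-effective, `GeneralType k L w`
that `W` is of general type, `Ruled k K` that `Z` is birational to the product of a variety and the
projective line (`Pool/Agent/W602/GT`); `IsUniruled k L w`: `W` is uniruled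
(`Pool/Agent/W619/PQ/Defs.lean`); `coords k y` is the field of the ratios of the homogeneous
coordinates `y`.
-/

set_option autoImplicit false

open Pool.Agent.W602.GT
open Pool.Agent.W619.PQ (IsUniruled)

namespace Pool.Agent.Results.MP_e06174_ag.PolynomialValueImages

/-- `K` is the function field, and `y` the generic point in homogeneous coordinates, of a closed
subvariety `Z` of dimension `w` of the variety `X ⊆ P^N` of the points `x` for which there is a
polynomial of degree at most `n` whose values at the `a i` are the `x i ^ m`; the polynomial of the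
generic point is `H`. -/
structure Subvariety {k : Type} [Field k] {N : ℕ} (a : Fin (N + 1) → k) (n m w : ℕ) (K : Type)
    [Field K] [Algebra k K] (y : Fin (N + 1) → K) (H : Polynomial K) : Prop where
  ne : y ≠ 0
  gen : coords k y = ⊤
  dim : Algebra.trdeg k K = w
  deg : H.natDegree ≤ n
  val : ∀ i, y i ^ m = H.eval (algebraMap k K (a i))

/-- Let `m ≥ 2`, `r ≥ 1`, `4 n + (n + 2 r - 1) ^ 2 < 2 (N + 1)`, and let `Z` be a closed subvariety of
dimension `w ≥ 1` of `X`, with generic polynomial `H`.
**(1)** Assume that `H` is not divisible by the `m`-th power of a polynomial of degree at least `2`.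
For every variety `W` dominated by `Z` with degree at most `r`: `κ(W) = -∞` if and only if `K_W` is
not pseudo-effective, if and only if `W` is uniruled, if and only if `W` is not of general type, if
and only if `Z` is ruled. If `Z` is not ruled, then all varieties `W` with generically finite
dominant rational maps `Z' ⇢ Z` of any degree and `Z' ⇢ W` of degree at most `r` are of general type.
**(2)** The assumption holds if `n < 2 m`, and if `n < w + 2 (m - 1)`: so it holds for all `Z` of
codimension less than `2 (m - 1)` in `X`.
**(3)** If `Z` is of codimension less than `m - 1` in `X`, for instance if `Z = X`, then `Z` is not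
ruled. -/
theorem result {k : Type} [Field k] [CharZero k] [IsAlgClosed k] {N n m r : ℕ} (hm : 2 ≤ m)
    (hr : 1 ≤ r) (hN : 4 * n + (n + 2 * r - 1) ^ 2 < 2 * (N + 1)) (a : Fin (N + 1) → k)
    (ha : Function.Injective a) {K : Type} [Field K] [Algebra k K] {w : ℕ} (hw : 1 ≤ w)
    {y : Fin (N + 1) → K} {H : Polynomial K} (hZ : Subvariety a n m w K y H) :
    ((∀ q : Polynomial K, 2 ≤ q.natDegree → ¬ q ^ m ∣ H) →
      (∀ (L : Type) [Field L] [Algebra k L] [Algebra L K] [IsScalarTower k L K]
        [FiniteDimensional L K], Module.finrank L K ≤ r →
        [¬ KodGe k L w (fun _ => False) 0, ¬ Psef k L w (fun _ => False), IsUniruled k L w,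
          ¬ GeneralType k L w, Ruled k K].TFAE) ∧
      (¬ Ruled k K → ∀ (K' L : Type) [Field K'] [Field L] [Algebra k K'] [Algebra k L]
        [Algebra K K'] [Algebra L K'] [IsScalarTower k K K'] [IsScalarTower k L K']
        [FiniteDimensional K K'] [FiniteDimensional L K'], Module.finrank L K' ≤ r →
        GeneralType k L w)) ∧
    (n < 2 * m ∨ n < w + 2 * (m - 1) → ∀ q : Polynomial K, 2 ≤ q.natDegree → ¬ q ^ m ∣ H) ∧
    (n < w + (m - 1) → ¬ Ruled k K) := by
  refine ⟨fun hfac => ⟨fun L _ _ _ _ _ hfr => ?_, fun hnr K' L _ _ _ _ _ _ _ _ _ _ hfr => ?_⟩,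
    fun h q hq => ?_, fun h => ?_⟩
  · exact Pool.Agent.N115.IM.below_tfae hm hr hw hN ha hZ.dim hZ.ne hZ.gen hZ.deg hZ.val hfac hfr
  · exact Pool.Agent.N115.IM.corr_general hm hr hw hN ha hZ.dim hZ.ne hZ.gen hZ.deg hZ.val hfac
      hnr hfr
  · exact Pool.Agent.N115.IM.no_factor hm hZ.dim hZ.ne hZ.gen hZ.deg hZ.val (d := 2)
      (h.imp (fun h => by omega) fun h => by omega) q hq
  · refine Pool.Agent.N115.IM.not_ruled hm hw ?_ ha hZ.dim hZ.ne hZ.gen hZ.deg hZ.val (Or.inr h)
    have h1 : n + 1 ≤ n + 2 * r - 1 := by omega
    have h2 : (n + 1) ^ 2 ≤ (n + 2 * r - 1) ^ 2 := Nat.pow_le_pow_left h1 2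
    omega

end Pool.Agent.Results.MP_e06174_ag.PolynomialValueImages
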